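import Mathlib
import Pool.Agent.MP_36f78e_lc.H75.Spec

/-!
The switching lemma for circuits over shallow decision trees.
-/

set_option linter.unusedSectionVars false

namespace Pool.Agent.MP_36f78e_lc.H23

open Pool.Agent.MP_36f78e_lc.H75 Finset
open scoped BigOperators

section

variable {ι : Type} [Fintype ι] [DecidableEq ι]

theorem fill_ov (β ρ : Restr ι) (x : ι → Bool) : fill (ov β ρ) x = fill β (fill ρ x) := by
  funext i
  unfold fill ov
  cases β i <;> simp

theorem fill_update (β : Restr ι) (i : ι) (hi : β i = none) (b : Bool) (x : ι → Bool) :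
    fill (Function.update β i (some b)) x = fill β (Function.update x i b) := by
  funext j
  unfold fill
  by_cases h : j = i
  · subst h
    simp [hi]
  · simp [Function.update_of_ne h]

theorem dt_mono {f : (ι → Bool) → Bool} {β : Restr ι} {s : ℕ} (h : DT f β s) :
    DT f β (s + 1) := by
  induction h with
  | leaf β s c h => exact DT.leaf β (s + 1) c h
  | node β s i hi _ ih => exact DT.node β (s + 1) i hi ih

theorem dt_zero {f : (ι → Bool) → Bool} {β : Restr ι} : ¬ DT f β 0 := by
  intro h
  cases h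

theorem dt_ov {f : (ι → Bool) → Bool} {β : Restr ι} {s : ℕ} (h : DT f β s) (ρ : Restr ι) :
    DT f (ov β ρ) s := by
  induction h with
  | leaf β s c h => exact DT.leaf _ s c fun x => by rw [fill_ov]; exact h _
  | node β s i hi _ ih =>
    cases hρ : ρ i with
    | none =>
      refine DT.node _ s i (by simp [ov, hi, hρ]) fun b => ?_
      have e : Function.update (ov β ρ) i (some b) = ov (Function.update β i (some b)) ρ := by
        funext j
        by_cases hj : j = i
        · subst hj
          simp [ov]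
        · simp [ov, Function.update_of_ne hj]
      rw [e]
      exact ih b
    | some c =>
      have e : ov β ρ = ov (Function.update β i (some c)) ρ := by
        funext j
        by_cases hj : j = i
        · subst hj
          simp [ov, hi, hρ]
        · simp [ov, Function.update_of_ne hj]
      rw [e]
      exact dt_mono (ih c)

theorem dt_factor {f f' : (ι → Bool) → Bool} (φ : Bool → Bool) {β : Restr ι} {s : ℕ}
    (h : DT f β s) : (∀ x, f' (fill β x) = φ (f (fill β x))) → DT f' β s := by
  induction h with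
  | leaf β s c h => exact fun e => DT.leaf β s (φ c) fun x => by rw [e, h]
  | node β s i hi _ ih =>
    intro e
    refine DT.node β s i hi fun b => ih b fun x => ?_
    rw [fill_update β i hi]
    exact e _

theorem dt_query (f : (ι → Bool) → Bool) (Y : Finset ι) :
    ∀ (γ : Restr ι) (s : ℕ), (∀ i ∈ Y, γ i = none) →
      (∀ u : ι → Bool, DT f (fun i => if i ∈ Y then some (u i) else γ i) s) →
      DT f γ (s + Y.card) := by
  induction Y using Finset.induction_on with
  | empty =>
    intro γ s _ h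
    simpa using h fun _ => false
  | insert j Y hj ih =>
    intro γ s hfree h
    rw [Finset.card_insert_of_notMem hj, ← add_assoc]
    refine DT.node γ _ j (hfree j (mem_insert_self _ _)) fun b => ih _ s ?_ fun u => ?_
    · intro i hi
      have hne : i ≠ j := fun e => hj (e ▸ hi)
      rw [Function.update_of_ne hne]
      exact hfree i (mem_insert_of_mem hi)
    · have e : (fun i => if i ∈ Y then some (u i) else Function.update γ j (some b) i) =
          fun i => if i ∈ insert j Y then some (Function.update u j b i) else γ i := by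
        funext i
        by_cases hi : i = j
        · subst hi
          simp [hj]
        · simp [hi]
      rw [e]
      exact h _

/-- Certificates of a decision tree. -/
theorem dt_cert {g : (ι → Bool) → Bool} {γ : Restr ι} {t : ℕ} (h : DT g γ t) :
    ∀ x, ∃ S : Finset ι, S.card ≤ t ∧
      ∀ y, (∀ i ∈ S, fill γ y i = fill γ x i) → g (fill γ y) = g (fill γ x) := by
  induction h with
  | leaf β s c h => exact fun x => ⟨∅, by simp, fun y _ => by rw [h, h]⟩
  | node β s i hi _ ih =>
    intro x
    obtain ⟨S, hS, hc⟩ := ih (x i) x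
    have ex : fill (Function.update β i (some (x i))) x = fill β x := by
      rw [fill_update β i hi, Function.update_eq_self]
    refine ⟨insert i S, (card_insert_le _ _).trans (by omega), fun y hy => ?_⟩
    have hyi : y i = x i := by
      have := hy i (mem_insert_self _ _)
      simpa [fill, hi] using this
    have ey : fill (Function.update β i (some (x i))) y = fill β y := by
      rw [fill_update β i hi, ← hyi, Function.update_eq_self]
    have := hc y fun j hj => by rw [ex, ey]; exact hy j (mem_insert_of_mem hj)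
    rwa [ex, ey] at this

/-- A disjunction of terms. -/
def dnf (L : List (Finset ι × (ι → Bool))) (y : ι → Bool) : Bool :=
  decide (∃ T ∈ L, ∀ i ∈ T.1, y i = T.2 i)

open Classical in
/-- The indicator of the absence of a shallow tree. -/
noncomputable def bad (f : (ι → Bool) → Bool) (γ : Restr ι) (s : ℕ) : ℝ :=
  if DT f γ s then 0 else 1

theorem bad_nonneg (f : (ι → Bool) → Bool) (γ : Restr ι) (s : ℕ) : 0 ≤ bad f γ s := by
  unfold bad
  split_ifs <;> norm_num

theorem bad_le_one (f : (ι → Bool) → Bool) (γ : Restr ι) (s : ℕ) : bad f γ s ≤ 1 := by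
  unfold bad
  split_ifs <;> norm_num

theorem bad_of_not {f : (ι → Bool) → Bool} {γ : Restr ι} {s : ℕ} (h : ¬ DT f γ s) :
    bad f γ s = 1 := by
  unfold bad
  rw [if_neg h]

theorem bad_of {f : (ι → Bool) → Bool} {γ : Restr ι} {s : ℕ} (h : DT f γ s) :
    bad f γ s = 0 := by
  unfold bad
  rw [if_pos h]

theorem wt_nonneg {p : ℝ} (h0 : 0 ≤ p) (h1 : p ≤ 1) (ρ : Restr ι) : 0 ≤ wt p ρ := by
  unfold wt
  refine prod_nonneg fun i _ => ?_
  split_ifs <;> linarith

theorem sum_wt (p : ℝ) : ∑ ρ : Restr ι, wt p ρ = 1 := by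
  have h := Finset.prod_univ_sum (fun _ : ι => (univ : Finset (Option Bool)))
    (fun _ o => if o = none then p else (1 - p) / 2)
  rw [Fintype.piFinset_univ] at h
  unfold wt
  rw [← h]
  refine prod_eq_one fun i _ => ?_
  simp only [Fintype.sum_option, Fintype.sum_bool, if_true, reduceCtorEq, if_false]
  ring

theorem wt_update {p : ℝ} (h1 : p < 1) (ρ : Restr ι) (i : ι) (hi : ρ i = none) (b : Bool) :
    wt p ρ = 2 * p / (1 - p) * wt p (Function.update ρ i (some b)) := by
  unfold wt
  rw [← Finset.mul_prod_erase univ _ (mem_univ i),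
    ← Finset.mul_prod_erase univ
      (fun j => if Function.update ρ i (some b) j = none then p else (1 - p) / 2) (mem_univ i)]
  have e : ∏ j ∈ univ.erase i, (if Function.update ρ i (some b) j = none then p else (1 - p) / 2) =
      ∏ j ∈ univ.erase i, (if ρ j = none then p else (1 - p) / 2) :=
    prod_congr rfl fun j hj => by rw [Function.update_of_ne (ne_of_mem_erase hj)]
  rw [e]
  have : (1 - p) ≠ 0 := by linarith
  simp only [hi, if_true, Function.update_self, reduceCtorEq, if_false]
  field_simp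

/-- Sets of restrictions closed under fixing a free coordinate. -/
def Closed (β : Restr ι) (D : Finset (Restr ι)) : Prop :=
  ∀ ρ ∈ D, ∀ i b, β i = none → ρ i = none → Function.update ρ i (some b) ∈ D

/-- The pattern on `S`: free on `Y`, equal to `v` elsewhere. -/
def Pat (β : Restr ι) (S : Finset ι) (v : ι → Bool) (Y : Finset ι) (ρ : Restr ι) : Prop :=
  ∀ i ∈ S, ov β ρ i = if i ∈ Y then none else some (v i)

instance (β : Restr ι) (S : Finset ι) (v : ι → Bool) (Y : Finset ι) :
    DecidablePred (Pat β S v Y) := fun ρ => by unfold Pat; infer_instance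

theorem ov_none {β ρ : Restr ι} {i : ι} (h : ov β ρ i = none) : β i = none ∧ ρ i = none := by
  unfold ov at h
  cases hb : β i <;> simp_all

theorem pat_weight {p : ℝ} (h0 : 0 ≤ p) (h1 : p < 1) {β : Restr ι} {D : Finset (Restr ι)}
    (hD : Closed β D) (S : Finset ι) (v : ι → Bool) (Y : Finset ι) : Y ⊆ S →
    ∑ ρ ∈ D.filter (Pat β S v Y), wt p ρ ≤
      (2 * p / (1 - p)) ^ Y.card * ∑ ρ ∈ D.filter (Pat β S v ∅), wt p ρ := by
  have hq : 0 ≤ 2 * p / (1 - p) := div_nonneg (by linarith) (by linarith)
  induction Y using Finset.induction_on with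
  | empty => intro _; simp
  | insert j Y hj ih =>
    intro hsub
    have hjS : j ∈ S := hsub (mem_insert_self _ _)
    have hfree : ∀ ρ ∈ D.filter (Pat β S v (insert j Y)), β j = none ∧ ρ j = none := by
      intro ρ hρ
      have := (mem_filter.1 hρ).2 j hjS
      rw [if_pos (mem_insert_self _ _)] at this
      exact ov_none this
    have step : ∑ ρ ∈ D.filter (Pat β S v (insert j Y)), wt p ρ ≤
        2 * p / (1 - p) * ∑ ρ ∈ D.filter (Pat β S v Y), wt p ρ := by
      rw [sum_congr rfl fun ρ hρ => wt_update h1 ρ j (hfree ρ hρ).2 (v j), ← mul_sum]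
      refine mul_le_mul_of_nonneg_left ?_ hq
      rw [← sum_image (s := D.filter (Pat β S v (insert j Y)))
        (g := fun ρ => Function.update ρ j (some (v j))) (f := wt p)]
      · refine sum_le_sum_of_subset_of_nonneg ?_ fun ρ _ _ => wt_nonneg h0 h1.le ρ
        intro σ hσ
        obtain ⟨ρ, hρ, rfl⟩ := mem_image.1 hσ
        obtain ⟨hb, hr⟩ := hfree ρ hρ
        refine mem_filter.2 ⟨hD ρ (mem_filter.1 hρ).1 j _ hb hr, fun i hi => ?_⟩
        by_cases hij : i = j
        · subst hij
          simp [ov, hb, hj]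
        · have := (mem_filter.1 hρ).2 i hi
          simpa [ov, Function.update_of_ne hij, hij] using this
      · intro ρ hρ σ hσ e
        funext i
        by_cases hij : i = j
        · subst hij
          rw [(hfree ρ hρ).2, (hfree σ hσ).2]
        · have := congrFun e i
          simpa [Function.update_of_ne hij] using this
    rw [card_insert_of_notMem hj, pow_succ', mul_assoc]
    exact step.trans (mul_le_mul_of_nonneg_left
      (ih fun i hi => hsub (mem_insert_of_mem hi)) hq)

/-- The restriction that fixes the whole term. -/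
def fixT (β : Restr ι) (S : Finset ι) (v : ι → Bool) (Y U : Finset ι) : Restr ι :=
  fun i => if i ∈ Y then some (decide (i ∈ U)) else if i ∈ S then some (v i) else β i

theorem closed_pat {β : Restr ι} {D : Finset (Restr ι)} (hD : Closed β D) (S : Finset ι)
    (v : ι → Bool) (Y U : Finset ι) : Closed (fixT β S v Y U) (D.filter (Pat β S v Y)) := by
  intro ρ hρ i b hi hr
  have hiS : i ∉ S ∧ β i = none := by
    unfold fixT at hi
    split_ifs at hi with h1 h2
    exact ⟨h2, hi⟩
  refine mem_filter.2 ⟨hD ρ (mem_filter.1 hρ).1 i b hiS.2 hr, fun j hj => ?_⟩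
  have hne : j ≠ i := fun e => hiS.1 (e ▸ hj)
  have := (mem_filter.1 hρ).2 j hj
  simpa [ov, Function.update_of_ne hne] using this

/-- The term is killed. -/
def Kill (β : Restr ι) (S : Finset ι) (v : ι → Bool) (ρ : Restr ι) : Prop :=
  ∃ i ∈ S, ov β ρ i = some (!v i)

instance (β : Restr ι) (S : Finset ι) (v : ι → Bool) :
    DecidablePred (Kill β S v) := fun ρ => by unfold Kill; infer_instance

theorem closed_kill {β : Restr ι} {D : Finset (Restr ι)} (hD : Closed β D) (S : Finset ι)
    (v : ι → Bool) : Closed β (D.filter (Kill β S v)) := by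
  intro ρ hρ i b hi hr
  obtain ⟨j, hj, e⟩ := (mem_filter.1 hρ).2
  refine mem_filter.2 ⟨hD ρ (mem_filter.1 hρ).1 i b hi hr, j, hj, ?_⟩
  have hne : j ≠ i := by
    rintro rfl
    simp [ov, hi, hr] at e
  simpa [ov, Function.update_of_ne hne] using e

theorem dnf_cons (S : Finset ι) (v : ι → Bool) (L : List (Finset ι × (ι → Bool))) (y : ι → Bool) :
    dnf ((S, v) :: L) y = (decide (∀ i ∈ S, y i = v i) || dnf L y) := by
  simp [dnf]

/-- If the term is constant on a subcube then it can be dropped. -/
theorem dt_cons {S : Finset ι} {v : ι → Bool} {L : List (Finset ι × (ι → Bool))} {γ : Restr ι}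
    {s : ℕ} (c : Bool) (hc : ∀ x, decide (∀ i ∈ S, fill γ x i = v i) = c) (h : DT (dnf L) γ s) :
    DT (dnf ((S, v) :: L)) γ s :=
  dt_factor (fun b => c || b) h fun x => by rw [dnf_cons, hc]

theorem bad_cons (β : Restr ι) (S : Finset ι) (v : ι → Bool) (L : List (Finset ι × (ι → Bool)))
    (s : ℕ) (ρ : Restr ι) :
    bad (dnf ((S, v) :: L)) (ov β ρ) (s + 1) ≤
      (if Kill β S v ρ then bad (dnf L) (ov β ρ) (s + 1) else 0) +
        ∑ Y ∈ S.powerset.erase ∅, ∑ U ∈ Y.powerset,
          if Pat β S v Y ρ then bad (dnf L) (ov (fixT β S v Y U) ρ) (s + 1 - Y.card) else 0 := by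
  have n1 : 0 ≤ (if Kill β S v ρ then bad (dnf L) (ov β ρ) (s + 1) else 0) := by
    split_ifs
    · exact bad_nonneg _ _ _
    · exact le_rfl
  have n2 : ∀ Y U : Finset ι, 0 ≤
      (if Pat β S v Y ρ then bad (dnf L) (ov (fixT β S v Y U) ρ) (s + 1 - Y.card) else 0) := by
    intro Y U
    split_ifs
    · exact bad_nonneg _ _ _
    · exact le_rfl
  have n3 : 0 ≤ ∑ Y ∈ S.powerset.erase ∅, ∑ U ∈ Y.powerset,
      if Pat β S v Y ρ then bad (dnf L) (ov (fixT β S v Y U) ρ) (s + 1 - Y.card) else 0 :=
    sum_nonneg fun Y _ => sum_nonneg fun U _ => n2 Y U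
  by_cases hdt : DT (dnf ((S, v) :: L)) (ov β ρ) (s + 1)
  · rw [bad_of hdt]
    linarith
  rw [bad_of_not hdt]
  by_cases hk : Kill β S v ρ
  · rw [if_pos hk, bad_of_not]
    · linarith
    · intro h
      obtain ⟨i, hi, e⟩ := hk
      refine hdt (dt_cons false (fun x => decide_eq_false fun h' => ?_) h)
      have := h' i hi
      simp [fill, e] at this
  · set Y : Finset ι := S.filter fun i => ov β ρ i = none with hY
    have hpat : Pat β S v Y ρ := by
      intro i hi
      by_cases h : ov β ρ i = none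
      · rw [if_pos (mem_filter.2 ⟨hi, h⟩), h]
      · have hiY : i ∉ Y := fun h' => h (mem_filter.1 h').2
        rw [if_neg hiY]
        obtain ⟨b, hb⟩ := Option.ne_none_iff_exists'.1 h
        have : b ≠ !v i := fun e => hk ⟨i, hi, by rw [hb, e]⟩
        rw [hb]
        cases b <;> cases hv : v i <;> simp_all
    have hne : Y ≠ ∅ := by
      intro e
      refine hdt (DT.leaf _ s true fun x => ?_)
      rw [dnf_cons, decide_eq_true, Bool.true_or]
      intro i hi
      have := hpat i hi
      rw [e, if_neg (notMem_empty i)] at this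
      simp [fill, this]
    have hYS : Y ⊆ S := filter_subset _ _
    obtain ⟨U, hU, hbad⟩ : ∃ U ⊆ Y, ¬ DT (dnf L) (ov (fixT β S v Y U) ρ) (s + 1 - Y.card) := by
      by_contra hcon
      push Not at hcon
      by_cases hs : Y.card ≤ s + 1
      · apply hdt
        have := dt_query (dnf ((S, v) :: L)) Y (ov β ρ) (s + 1 - Y.card)
          (fun i hi => (mem_filter.1 hi).2) fun u => ?_
        · rwa [Nat.sub_add_cancel hs] at this
        · have e : (fun i => if i ∈ Y then some (u i) else ov β ρ i) =
              ov (fixT β S v Y (Y.filter fun i => u i = true)) ρ := by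
            funext i
            by_cases hi : i ∈ Y
            · simp [ov, fixT, hi]
            · by_cases hiS : i ∈ S
              · have := hpat i hiS
                rw [if_neg hi] at this
                rw [if_neg hi, this]
                simp [ov, fixT, hi, hiS]
              · simp [ov, fixT, hi, hiS]
          rw [e]
          refine dt_cons (decide (∀ i ∈ Y, u i = v i)) (fun x => ?_) (hcon _ (filter_subset _ _))
          rw [decide_eq_decide]
          constructor
          · intro h i hi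
            have := h i (hYS hi)
            simpa [fill, ov, fixT, hi] using this
          · intro h i hi
            by_cases hiY : i ∈ Y
            · simpa [fill, ov, fixT, hiY] using h i hiY
            · simp [fill, ov, fixT, hiY, hi]
      · have := hcon ∅ (empty_subset _)
        rw [Nat.sub_eq_zero_of_le (by omega)] at this
        exact dt_zero this
    have l1 := single_le_sum (s := Y.powerset) (fun U _ => n2 Y U) (mem_powerset.2 hU)
    have l2 := single_le_sum (s := S.powerset.erase ∅)
      (f := fun Y => ∑ U ∈ Y.powerset,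
        if Pat β S v Y ρ then bad (dnf L) (ov (fixT β S v Y U) ρ) (s + 1 - Y.card) else 0)
      (fun Y _ => sum_nonneg fun U _ => n2 Y U) (mem_erase.2 ⟨hne, mem_powerset.2 hYS⟩)
    rw [if_pos hpat, bad_of_not hbad] at l1
    linarith

theorem half_pow_sub (s y : ℕ) : (1 / 2 : ℝ) ^ (s - y) ≤ 2 ^ y * (1 / 2) ^ s := by
  have h : (1 / 2 : ℝ) ^ (s - y + y) ≤ (1 / 2) ^ s :=
    pow_le_pow_of_le_one (by norm_num) (by norm_num) (by omega)
  have e : (1 / 2 : ℝ) ^ (s - y) = 2 ^ y * (1 / 2) ^ (s - y + y) := by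
    rw [pow_add, mul_comm ((1 / 2 : ℝ) ^ (s - y)), ← mul_assoc, ← mul_pow]
    norm_num
  rw [e]
  exact mul_le_mul_of_nonneg_left h (by positivity)

/-- The core estimate. -/
theorem core {p : ℝ} (h0 : 0 ≤ p) (h1 : p < 1) {t : ℕ}
    (hq : (1 + 4 * (2 * p / (1 - p))) ^ t ≤ 2) (L : List (Finset ι × (ι → Bool))) :
    (∀ T ∈ L, T.1.card ≤ t) → ∀ (β : Restr ι) (s : ℕ) (D : Finset (Restr ι)), Closed β D →
      ∑ ρ ∈ D, wt p ρ * bad (dnf L) (ov β ρ) s ≤ (1 / 2) ^ s * ∑ ρ ∈ D, wt p ρ := by
  have hw : ∀ ρ : Restr ι, 0 ≤ wt p ρ := wt_nonneg h0 h1.le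
  have hzero : ∀ (f : (ι → Bool) → Bool) (β : Restr ι) (D : Finset (Restr ι)),
      ∑ ρ ∈ D, wt p ρ * bad f (ov β ρ) 0 ≤ (1 / 2) ^ 0 * ∑ ρ ∈ D, wt p ρ := by
    intro f β D
    rw [pow_zero, one_mul]
    exact sum_le_sum fun ρ _ => mul_le_of_le_one_right (hw ρ) (bad_le_one _ _ _)
  induction L with
  | nil =>
    intro _ β s D _
    cases s with
    | zero => exact hzero _ β D
    | succ s =>
      rw [sum_eq_zero fun ρ _ => by
        rw [bad_of (DT.leaf _ s false fun x => by simp [dnf]), mul_zero]]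
      exact mul_nonneg (by positivity) (sum_nonneg fun ρ _ => hw ρ)
  | cons T L ih =>
    obtain ⟨S, v⟩ := T
    intro hL β s D hD
    have ih' := ih fun T hT => hL T (List.mem_cons_of_mem _ hT)
    have hS : S.card ≤ t := hL (S, v) List.mem_cons_self
    cases s with
    | zero => exact hzero _ β D
    | succ s =>
      set q : ℝ := 2 * p / (1 - p) with hqdef
      have hq0 : 0 ≤ q := div_nonneg (by linarith) (by linarith)
      set W0 : ℝ := ∑ ρ ∈ D.filter (Kill β S v), wt p ρ with hW0
      set W1 : ℝ := ∑ ρ ∈ D.filter (Pat β S v ∅), wt p ρ with hW1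
      have hW1n : 0 ≤ W1 := sum_nonneg fun ρ _ => hw ρ
      have a1 : ∑ ρ ∈ D, wt p ρ * bad (dnf ((S, v) :: L)) (ov β ρ) (s + 1) ≤
          ∑ ρ ∈ D.filter (Kill β S v), wt p ρ * bad (dnf L) (ov β ρ) (s + 1) +
          ∑ Y ∈ S.powerset.erase ∅, ∑ U ∈ Y.powerset, ∑ ρ ∈ D.filter (Pat β S v Y),
            wt p ρ * bad (dnf L) (ov (fixT β S v Y U) ρ) (s + 1 - Y.card) := by
        refine (sum_le_sum fun ρ _ =>
          mul_le_mul_of_nonneg_left (bad_cons β S v L s ρ) (hw ρ)).trans (le_of_eq ?_)
        simp only [mul_add, sum_add_distrib, mul_sum, sum_filter, mul_ite, mul_zero]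
        congr 1
        rw [sum_comm]
        exact sum_congr rfl fun Y _ => sum_comm
      have a2 : ∀ Y ∈ S.powerset.erase ∅, ∑ U ∈ Y.powerset, ∑ ρ ∈ D.filter (Pat β S v Y),
          wt p ρ * bad (dnf L) (ov (fixT β S v Y U) ρ) (s + 1 - Y.card) ≤
          (4 * q) ^ Y.card * ((1 / 2) ^ (s + 1) * W1) := by
        intro Y hY
        have hYS : Y ⊆ S := mem_powerset.1 (mem_of_mem_erase hY)
        have b1 : ∀ U ∈ Y.powerset, ∑ ρ ∈ D.filter (Pat β S v Y),
            wt p ρ * bad (dnf L) (ov (fixT β S v Y U) ρ) (s + 1 - Y.card) ≤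
            (2 ^ Y.card * (1 / 2) ^ (s + 1)) * (q ^ Y.card * W1) := fun U _ =>
          (ih' _ _ _ (closed_pat hD S v Y U)).trans
            (mul_le_mul (half_pow_sub _ _) (pat_weight h0 h1 hD S v Y hYS)
              (sum_nonneg fun ρ _ => hw ρ) (by positivity))
        refine (sum_le_sum b1).trans (le_of_eq ?_)
        rw [sum_const, card_powerset, nsmul_eq_mul]
        push_cast
        rw [show (4 * q) = 2 * (2 * q) by ring, mul_pow, mul_pow]
        ring
      have a3 : ∑ Y ∈ S.powerset.erase ∅, (4 * q) ^ Y.card ≤ 1 := by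
        have e := Finset.add_sum_erase S.powerset (fun Y => (4 * q) ^ Y.card)
          (empty_mem_powerset S)
        have e2 : ∑ Y ∈ S.powerset, (4 * q) ^ Y.card = (1 + 4 * q) ^ S.card := by
          have := Finset.prod_one_add (f := fun _ : ι => 4 * q) S
          simpa using this.symm
        have e3 : (1 + 4 * q) ^ S.card ≤ (1 + 4 * q) ^ t :=
          pow_le_pow_right₀ (by linarith) hS
        simp only [card_empty, pow_zero] at e
        linarith
      have a4 : W0 + W1 ≤ ∑ ρ ∈ D, wt p ρ := by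
        rw [hW0, hW1, ← sum_union]
        · exact sum_le_sum_of_subset_of_nonneg
            (union_subset (filter_subset _ _) (filter_subset _ _)) fun ρ _ _ => hw ρ
        · rw [disjoint_filter]
          rintro ρ _ ⟨i, hi, e⟩ hp
          have := hp i hi
          rw [e, if_neg (notMem_empty i)] at this
          simp at this
      have a5 := ih' β (s + 1) _ (closed_kill hD S v)
      have a6 := sum_le_sum a2
      rw [← sum_mul] at a6
      have hpos : (0 : ℝ) ≤ (1 / 2) ^ (s + 1) := by positivity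
      have a7 := mul_le_of_le_one_left (mul_nonneg hpos hW1n) a3
      have a8 := mul_le_mul_of_nonneg_left a4 hpos
      rw [mul_add] at a8
      linarith

theorem param {t : ℕ} (ht : 1 ≤ t) :
    (1 + 4 * (2 * (1 / (20 * (t : ℝ))) / (1 - 1 / (20 * (t : ℝ))))) ^ t ≤ 2 := by
  have h1 : (1 : ℝ) ≤ t := by exact_mod_cast ht
  have e : 4 * (2 * (1 / (20 * (t : ℝ))) / (1 - 1 / (20 * (t : ℝ)))) = 8 / (20 * t - 1) := by
    have : (20 * (t : ℝ) - 1) ≠ 0 := by linarith
    field_simp
    ring
  rw [e]
  have hx : 0 ≤ 8 / (20 * (t : ℝ) - 1) := div_nonneg (by norm_num) (by linarith)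
  have h2 : (1 + 8 / (20 * (t : ℝ) - 1)) ^ t ≤ Real.exp (8 / (20 * (t : ℝ) - 1)) ^ t :=
    pow_le_pow_left₀ (by linarith) (by linarith [Real.add_one_le_exp (8 / (20 * (t : ℝ) - 1))]) t
  have h3 : (t : ℝ) * (8 / (20 * (t : ℝ) - 1)) ≤ Real.log 2 := by
    have : (t : ℝ) * (8 / (20 * (t : ℝ) - 1)) ≤ 1 / 2 := by
      rw [← mul_div_assoc, div_le_iff₀ (by linarith)]
      linarith
    linarith [Real.log_two_gt_d9]
  rw [← Real.exp_nat_mul] at h2
  refine h2.trans ((Real.exp_le_exp.2 h3).trans (le_of_eq (Real.exp_log (by norm_num))))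

/-- One round of restrictions for a gate whose inputs have shallow trees. -/
theorem round {t : ℕ} (ht : 1 ≤ t) {f : (ι → Bool) → Bool} {F : Finset ((ι → Bool) → Bool)}
    {c : Bool} (hf : ∀ x, (f x = c ↔ ∃ g ∈ F, g x = c)) (γ : Restr ι) (hF : ∀ g ∈ F, DT g γ t) :
    ∑ ρ, wt (1 / (20 * (t : ℝ))) ρ * bad f (ov γ ρ) t ≤ (1 / 2) ^ t := by
  have h1 : (1 : ℝ) ≤ t := by exact_mod_cast ht
  have h0 : (0 : ℝ) ≤ 1 / (20 * (t : ℝ)) := by positivity
  have hp : 1 / (20 * (t : ℝ)) < 1 := by
    rw [div_lt_one (by linarith)]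
    linarith
  have hc : ∀ x, ∃ S : Finset ι, S.card ≤ t ∧ (f (fill γ x) = c →
      ∀ y, (∀ i ∈ S, fill γ y i = fill γ x i) → f (fill γ y) = c) := by
    intro x
    by_cases hx : f (fill γ x) = c
    · obtain ⟨g, hg, e⟩ := (hf _).1 hx
      obtain ⟨S, hS, h⟩ := dt_cert (hF g hg) x
      exact ⟨S, hS, fun _ y hy => (hf _).2 ⟨g, hg, (h y hy).trans e⟩⟩
    · exact ⟨∅, by simp, fun h => absurd h hx⟩
  choose S hS hcert using hc
  set L : List (Finset ι × (ι → Bool)) :=
    (univ.filter fun x => f (fill γ x) = c).toList.map fun x => (S x, fill γ x) with hL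
  have hval : ∀ y, f (fill γ y) = (fun b => if b = true then c else !c) (dnf L (fill γ y)) := by
    intro y
    by_cases hy : f (fill γ y) = c
    · have : dnf L (fill γ y) = true := decide_eq_true
        ⟨(S y, fill γ y), List.mem_map.2 ⟨y, by simpa using hy, rfl⟩, fun _ _ => rfl⟩
      simp [this, hy]
    · have : dnf L (fill γ y) = false := decide_eq_false fun ⟨T, hT, h⟩ => by
        obtain ⟨x, hx, rfl⟩ := List.mem_map.1 hT
        exact hy (hcert x (by simpa using hx) y h)
      rw [this]
      cases c <;> simpa using hy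
  have hcore := core h0 hp (param ht) L (fun T hT => by
    obtain ⟨x, _, rfl⟩ := List.mem_map.1 hT
    exact hS x) γ t univ fun _ _ _ _ _ _ => mem_univ _
  rw [sum_wt, mul_one] at hcore
  refine le_trans (sum_le_sum fun ρ _ => mul_le_mul_of_nonneg_left ?_ (wt_nonneg h0 hp.le ρ)) hcore
  by_cases h : DT (dnf L) (ov γ ρ) t
  · rw [bad_of (dt_factor (fun b => if b = true then c else !c) h fun x => by
      rw [fill_ov]; exact hval _), bad_of h]
  · rw [bad_of_not h]
    exact bad_le_one _ _ _

theorem ex_mono {p : ℝ} (h0 : 0 ≤ p) (h1 : p ≤ 1) (k : ℕ) :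
    ∀ (G G' : Restr ι → ℝ), (∀ γ, G γ ≤ G' γ) → ∀ β, Ex p k G β ≤ Ex p k G' β := by
  induction k with
  | zero => exact fun G G' h β => h β
  | succ k ih =>
    exact fun G G' h β => ih _ _ (fun γ => sum_le_sum fun ρ _ =>
      mul_le_mul_of_nonneg_left (h _) (wt_nonneg h0 h1 ρ)) β

theorem ex_add_sum {κ : Type} (p : ℝ) (a : ℝ) (F : Finset κ) (k : ℕ) :
    ∀ (G : κ → Restr ι → ℝ) (β : Restr ι),
      Ex p k (fun γ => a + ∑ g ∈ F, G g γ) β = a + ∑ g ∈ F, Ex p k (G g) β := by
  induction k with
  | zero => exact fun G β => rfl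
  | succ k ih =>
    intro G β
    have e : (fun γ : Restr ι => ∑ ρ, wt p ρ * (a + ∑ g ∈ F, G g (ov γ ρ))) =
        fun γ => a + ∑ g ∈ F, ∑ ρ, wt p ρ * G g (ov γ ρ) := by
      funext γ
      simp only [mul_add, sum_add_distrib, mul_sum]
      rw [← sum_mul, sum_wt, one_mul, sum_comm]
    show Ex p k (fun γ => ∑ ρ, wt p ρ * (a + ∑ g ∈ F, G g (ov γ ρ))) β = _
    rw [e, ih]
    rfl

theorem main (s t : ℕ) (ht : 1 ≤ t) (k : ℕ) : ∀ f : (ι → Bool) → Bool, AC s t k f →
    ∀ β : Restr ι, Ex (1 / (20 * (t : ℝ))) k (fun γ => bad f γ t) β ≤ ((s : ℝ) + 1) ^ k / 2 ^ t := by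
  have h1 : (1 : ℝ) ≤ t := by exact_mod_cast ht
  have h0 : (0 : ℝ) ≤ 1 / (20 * (t : ℝ)) := by positivity
  have hp : 1 / (20 * (t : ℝ)) ≤ 1 := by
    rw [div_le_one (by linarith)]
    linarith
  induction k with
  | zero =>
    intro f hf β
    have h : DT f β t := by
      have := dt_ov (show DT f (fun _ => none) t from hf) β
      have e : ov (fun _ => none) β = β := by
        funext i
        simp [ov]
      rwa [e] at this
    show bad f β t ≤ _
    rw [bad_of h]
    positivity
  | succ k ih =>
    rintro f ⟨F, c, hcard, hF, hf⟩ β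
    have b1 : ∀ γ : Restr ι, ∑ ρ, wt (1 / (20 * (t : ℝ))) ρ * bad f (ov γ ρ) t ≤
        (1 / 2) ^ t + ∑ g ∈ F, bad g γ t := by
      intro γ
      by_cases h : ∀ g ∈ F, DT g γ t
      · have := round ht hf γ h
        have n : 0 ≤ ∑ g ∈ F, bad g γ t := sum_nonneg fun g _ => bad_nonneg _ _ _
        linarith
      · push Not at h
        obtain ⟨g, hg, hb⟩ := h
        have l1 := single_le_sum (f := fun g => bad g γ t) (fun g _ => bad_nonneg g γ t) hg
        have l2 : ∑ ρ, wt (1 / (20 * (t : ℝ))) ρ * bad f (ov γ ρ) t ≤ 1 := by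
          refine le_of_le_of_eq ?_ (sum_wt (ι := ι) (1 / (20 * (t : ℝ))))
          exact sum_le_sum fun ρ _ => mul_le_of_le_one_right (wt_nonneg h0 hp ρ) (bad_le_one _ _ _)
        have n : (0 : ℝ) ≤ (1 / 2) ^ t := by positivity
        rw [bad_of_not hb] at l1
        linarith
    have b2 := ex_mono h0 hp k _ _ b1 β
    rw [ex_add_sum _ _ F k (fun g γ => bad g γ t) β] at b2
    have b3 : ∑ g ∈ F, Ex (1 / (20 * (t : ℝ))) k (fun γ => bad g γ t) β ≤
        s * (((s : ℝ) + 1) ^ k / 2 ^ t) := by
      refine (sum_le_sum fun g hg => ih g (hF g hg) β).trans ?_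
      rw [sum_const, nsmul_eq_mul]
      exact mul_le_mul_of_nonneg_right (by exact_mod_cast hcard) (by positivity)
    have b4 : (1 / 2 : ℝ) ^ t ≤ ((s : ℝ) + 1) ^ k / 2 ^ t := by
      rw [one_div_pow]
      exact div_le_div_of_nonneg_right (one_le_pow₀ (by linarith [Nat.cast_nonneg (α := ℝ) s]))
        (by positivity)
    have e : ((s : ℝ) + 1) ^ (k + 1) / 2 ^ t =
        ((s : ℝ) + 1) ^ k / 2 ^ t + s * (((s : ℝ) + 1) ^ k / 2 ^ t) := by ring
    show Ex _ k (fun γ => ∑ ρ, wt (1 / (20 * (t : ℝ))) ρ * bad f (ov γ ρ) t) β ≤ _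
    linarith

end

/-- The switching lemma for circuits. -/
theorem switch : SwitchStmt := fun _ _ _ s t k f ht hf β => main s t ht k f hf β

end Pool.Agent.MP_36f78e_lc.H23
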